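import Pool.Agent.MP_439cf8_an.H72.Norm

/-! The norming family and the water-filling move. -/

namespace Pool.Agent.MP_439cf8_an.H72

open Finset

/-- The norming family of the new norm. -/
def Fam (ν : (ℕ →₀ ℝ) → ℝ) : Set (ℕ →₀ ℝ) :=
  {u | ∃ (x : ℕ →₀ ℝ) (s : ℝ) (D E F G : Finset ℕ), (∀ k, 0 ≤ x k) ∧ ν x ≤ 1 ∧ 0 ≤ s ∧
    D.card = E.card ∧ Disjoint D F ∧ F ⊆ G ∧ Disjoint E G ∧
    (D.card : ℝ) * s ≤ ∑ k ∈ E, x k + ∑ k ∈ G, max (x k - s) 0 ∧
    ∀ k, u k = if k ∈ D then s else if k ∈ F then min (x k) s else 0}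

/-- Pairing of a finitely supported sequence with an arbitrary sequence. -/
noncomputable def pr (u : ℕ →₀ ℝ) (a : ℕ → ℝ) : ℝ := u.sum fun k c => c * a k

lemma pr_eq (u : ℕ →₀ ℝ) (a : ℕ → ℝ) {T : Finset ℕ} (hT : u.support ⊆ T) :
    pr u a = ∑ k ∈ T, u k * a k :=
  Finsupp.sum_of_support_subset u hT _ (by simp)

variable {ν : (ℕ →₀ ℝ) → ℝ}

lemma Fam.nonneg {u : ℕ →₀ ℝ} (hu : u ∈ Fam ν) (k : ℕ) : 0 ≤ u k := by
  obtain ⟨x, s, D, E, F, G, hx, -, hs, -, -, -, -, -, hu⟩ := hu
  rw [hu]
  split_ifs
  · exact hs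
  · exact le_min (hx k) hs
  · exact le_rfl

lemma pr_mono {u : ℕ →₀ ℝ} (hu : ∀ k, 0 ≤ u k) {a b : ℕ → ℝ} (hab : ∀ k, a k ≤ b k) :
    pr u a ≤ pr u b :=
  Finset.sum_le_sum fun k _ => mul_le_mul_of_nonneg_left (hab k) (hu k)

/-- The sequence built from the data. -/
noncomputable def mk (x : ℕ →₀ ℝ) (s : ℝ) (D F : Finset ℕ) : ℕ →₀ ℝ :=
  Finsupp.onFinset (D ∪ F) (fun k => if k ∈ D then s else if k ∈ F then min (x k) s else 0) (by
    intro k hk
    by_contra h
    rw [Finset.mem_union, not_or] at h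
    simp [h.1, h.2] at hk)

lemma mk_apply (x : ℕ →₀ ℝ) (s : ℝ) (D F : Finset ℕ) (k : ℕ) :
    mk x s D F k = if k ∈ D then s else if k ∈ F then min (x k) s else 0 := rfl

/-- Domination of sequences with respect to the family. -/
def Dom (ν : (ℕ →₀ ℝ) → ℝ) (a b : ℕ → ℝ) : Prop :=
  ∀ u ∈ Fam ν, ∃ u' ∈ Fam ν, pr u a ≤ pr u' b

lemma Dom.trans {a b c : ℕ → ℝ} (h1 : Dom ν a b) (h2 : Dom ν b c) : Dom ν a c := by
  intro u hu
  obtain ⟨u', hu', h⟩ := h1 u hu
  obtain ⟨u'', hu'', h'⟩ := h2 u' hu'
  exact ⟨u'', hu'', h.trans h'⟩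

lemma Dom.of_le {a b : ℕ → ℝ} (h : ∀ k, a k ≤ b k) : Dom ν a b :=
  fun u hu => ⟨u, hu, pr_mono (Fam.nonneg hu) h⟩

/-- The transport criterion. -/
lemma pr_le_of_transport (u u' : ℕ →₀ ℝ) (T : Finset ℕ) {i j : ℕ} (hij : i ≠ j) (hi : i ∉ T)
    (hj : j ∉ T) (hu : ∀ k, k ∉ T → k ≠ i → k ≠ j → u k = 0)
    (hu' : ∀ k, k ∉ T → k ≠ i → k ≠ j → u' k = 0)
    (hkey : u i + ∑ k ∈ T, max (u k - u' k) 0 ≤ u' j)
    {w : ℕ → ℝ} {t : ℝ} (hw0 : ∀ k, 0 ≤ w k) (hwt : ∀ k, w k ≤ t) (hwi : w i = 0) (hwj : w j = 0) :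
    pr u (Function.update w i t) ≤ pr u' (Function.update w j t) := by
  have ht : 0 ≤ t := (hw0 0).trans (hwt 0)
  have hsub : ∀ v : ℕ →₀ ℝ, (∀ k, k ∉ T → k ≠ i → k ≠ j → v k = 0) →
      v.support ⊆ insert i (insert j T) := by
    intro v hv k hk
    rw [Finsupp.mem_support_iff] at hk
    by_contra h
    simp only [Finset.mem_insert, not_or] at h
    exact hk (hv k h.2.2 h.1 h.2.1)
  have hi' : i ∉ insert j T := by simp [hij, hi]
  rw [pr_eq u _ (hsub u hu), pr_eq u' _ (hsub u' hu'), Finset.sum_insert hi',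
    Finset.sum_insert hi', Finset.sum_insert hj, Finset.sum_insert hj]
  simp only [Function.update_self, Function.update_of_ne hij, Function.update_of_ne hij.symm,
    hwi, hwj, mul_zero, zero_add]
  have h1 : ∑ k ∈ T, u k * Function.update w i t k = ∑ k ∈ T, u k * w k :=
    Finset.sum_congr rfl fun k hk => by
      rw [Function.update_of_ne (ne_of_mem_of_not_mem hk hi)]
  have h2 : ∑ k ∈ T, u' k * Function.update w j t k = ∑ k ∈ T, u' k * w k :=
    Finset.sum_congr rfl fun k hk => by
      rw [Function.update_of_ne (ne_of_mem_of_not_mem hk hj)]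
  rw [h1, h2]
  have h3 : ∑ k ∈ T, u k * w k - ∑ k ∈ T, u' k * w k ≤ (∑ k ∈ T, max (u k - u' k) 0) * t := by
    rw [← Finset.sum_sub_distrib, Finset.sum_mul]
    refine Finset.sum_le_sum fun k _ => ?_
    calc u k * w k - u' k * w k = (u k - u' k) * w k := by ring
      _ ≤ max (u k - u' k) 0 * w k := mul_le_mul_of_nonneg_right (le_max_left _ _) (hw0 k)
      _ ≤ max (u k - u' k) 0 * t := mul_le_mul_of_nonneg_left (hwt k) (le_max_right _ _)
  have h4 := mul_le_mul_of_nonneg_right hkey ht
  nlinarith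

/-- Moving one top coordinate to an empty place does not decrease the new norm. -/
lemma Dom.move {w : ℕ → ℝ} {t : ℝ} (hw0 : ∀ k, 0 ≤ w k) (hwt : ∀ k, w k ≤ t) {i j : ℕ}
    (hij : i ≠ j) (hwi : w i = 0) (hwj : w j = 0) :
    Dom ν (Function.update w i t) (Function.update w j t) := by
  intro u hu
  have hu0 := Fam.nonneg hu
  have hu1 := hu
  obtain ⟨x, s, D, E, F, G, hx, hν, hs, hcard, hDF, hFG, hEG, hbud, hu⟩ := hu
  have hus : ∀ k, u k ≤ s := by
    intro k
    rw [hu]
    split_ifs
    · exact le_rfl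
    · exact min_le_right _ _
    · exact hs
  by_cases hc : u i ≤ u j
  · refine ⟨u, hu1, pr_le_of_transport u u ((u.support.erase i).erase j) hij (by simp) (by simp)
      ?_ ?_ (by simpa using hc) hw0 hwt hwi hwj⟩ <;>
    · intro k hk hki hkj
      simpa [hki, hkj] using hk
  have hjD : j ∉ D := by
    intro h
    apply hc
    rw [hu j, if_pos h]; exact hus i
  by_cases hiD : i ∈ D
  · refine ⟨mk x s (insert j (D.erase i)) (F.erase j), ⟨x, s, insert j (D.erase i), E, F.erase j,
      G, hx, hν, hs, ?_, ?_, (Finset.erase_subset _ _).trans hFG, hEG, ?_, fun k => rfl⟩,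
      pr_le_of_transport _ _ (((D ∪ F).erase i).erase j) hij (by simp) (by simp)
      ?_ ?_ ?_ hw0 hwt hwi hwj⟩
    · rw [Finset.card_insert_of_notMem (by simp [hjD]), Finset.card_erase_add_one hiD, hcard]
    · rw [Finset.disjoint_left] at hDF ⊢
      intro k hk hk'
      simp only [Finset.mem_insert, Finset.mem_erase] at hk hk'
      rcases hk with hk | hk
      · exact hk'.1 hk
      · exact hDF hk.2 hk'.2
    · rw [Finset.card_insert_of_notMem (by simp [hjD]), Finset.card_erase_add_one hiD]
      exact hbud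
    · intro k hk hki hkj
      simp only [Finset.mem_erase, Finset.mem_union, ne_eq, hki, hkj, not_false_eq_true, true_and,
        not_or] at hk
      rw [hu, if_neg hk.1, if_neg hk.2]
    · intro k hk hki hkj
      simp only [Finset.mem_erase, Finset.mem_union, ne_eq, hki, hkj, not_false_eq_true, true_and,
        not_or] at hk
      rw [mk_apply, if_neg (by simp [hkj, hk.1]), if_neg (by simp [hk.2])]
    · have h1 : ∑ k ∈ ((D ∪ F).erase i).erase j,
          max (u k - mk x s (insert j (D.erase i)) (F.erase j) k) 0 = 0 := by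
        refine Finset.sum_eq_zero fun k hk => ?_
        simp only [Finset.mem_erase] at hk
        rw [mk_apply, hu]
        simp [hk.1, hk.2.1]
      rw [h1, mk_apply, if_pos (Finset.mem_insert_self _ _), add_zero]
      exact hus i
  have hiF : i ∈ F := by
    by_contra h
    apply hc
    rw [hu i, if_neg hiD, if_neg h]; exact hu0 j
  set F' := (F.erase i).erase j with hF'
  have hiE : i ∉ E := fun h => Finset.disjoint_left.1 hEG h (hFG hiF)
  let φ : ℝ → ℝ := fun σ =>
    σ - (min (x i) s + D.card * (s - σ) + ∑ k ∈ F', max (min (x k) s - σ) 0)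
  have hφ : Continuous φ := by fun_prop
  have hφ0 : φ 0 ≤ 0 := by
    have h1 : 0 ≤ min (x i) s := le_min (hx i) hs
    have h2 : 0 ≤ ∑ k ∈ F', max (min (x k) s - 0) 0 :=
      Finset.sum_nonneg fun k _ => le_max_right _ _
    have h3 : 0 ≤ (D.card : ℝ) * (s - 0) := by
      rw [sub_zero]; positivity
    simp only [φ]; linarith
  have hφs : 0 ≤ φ s := by
    have h1 : min (x i) s ≤ s := min_le_right _ _
    have h2 : ∑ k ∈ F', max (min (x k) s - s) 0 = 0 :=
      Finset.sum_eq_zero fun k _ => max_eq_right (sub_nonpos.2 (min_le_right _ _))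
    simp only [φ, h2]; linarith
  obtain ⟨σ, ⟨hσ0, hσs⟩, hσ⟩ := intermediate_value_Icc hs hφ.continuousOn ⟨hφ0, hφs⟩
  have hσ' : σ = min (x i) s + D.card * (s - σ) + ∑ k ∈ F', max (min (x k) s - σ) 0 := by
    simp only [φ] at hσ; linarith
  have hF'F : F' ⊆ F := (Finset.erase_subset _ _).trans (Finset.erase_subset _ _)
  have hF'G : F' ⊆ G.erase i := by
    intro k hk
    simp only [hF', Finset.mem_erase] at hk ⊢
    exact ⟨hk.2.1, hFG hk.2.2⟩
  have hDF' : Disjoint D F' := Finset.disjoint_of_subset_right hF'F hDF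
  refine ⟨mk x σ (insert j D) F', ⟨x, σ, insert j D, insert i E, F', G.erase i, hx, hν, hσ0, ?_, ?_,
      hF'G, ?_, ?_, fun k => rfl⟩,
      pr_le_of_transport _ _ (D ∪ F') hij (by simp [hiD, hF']) (by simp [hjD, hF'])
      ?_ ?_ ?_ hw0 hwt hwi hwj⟩
  · rw [Finset.card_insert_of_notMem hjD, Finset.card_insert_of_notMem hiE, hcard]
  · rw [Finset.disjoint_insert_left]
    exact ⟨by simp [hF'], hDF'⟩
  · rw [Finset.disjoint_insert_left]
    exact ⟨by simp, Finset.disjoint_of_subset_right (Finset.erase_subset _ _) hEG⟩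
  · rw [Finset.card_insert_of_notMem hjD, Finset.sum_insert hiE]
    have h1 : ∑ k ∈ G, max (x k - s) 0 = max (x i - s) 0 + ∑ k ∈ G.erase i, max (x k - s) 0 :=
      (Finset.add_sum_erase _ _ (hFG hiF)).symm
    have h2 : min (x i) s + max (x i - s) 0 = x i := by
      rcases le_total (x i) s with h | h
      · rw [min_eq_left h, max_eq_right (by linarith)]; ring
      · rw [min_eq_right h, max_eq_left (by linarith)]; ring
    have h3 : ∑ k ∈ F', max (min (x k) s - σ) 0 ≤ ∑ k ∈ G.erase i, max (min (x k) s - σ) 0 :=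
      Finset.sum_le_sum_of_subset_of_nonneg hF'G fun k _ _ => le_max_right _ _
    have h4 : ∑ k ∈ G.erase i, max (x k - s) 0 + ∑ k ∈ G.erase i, max (min (x k) s - σ) 0 ≤
        ∑ k ∈ G.erase i, max (x k - σ) 0 := by
      rw [← Finset.sum_add_distrib]
      refine Finset.sum_le_sum fun k _ => ?_
      rcases le_total (x k) s with h | h
      · rw [min_eq_left h, max_eq_right (by linarith : x k - s ≤ 0), zero_add]
      · rw [min_eq_right h, max_eq_left (by linarith : 0 ≤ x k - s),
          max_eq_left (by linarith : 0 ≤ s - σ), max_eq_left (by linarith : 0 ≤ x k - σ)]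
        linarith
    push_cast
    nlinarith
  · intro k hk hki hkj
    simp only [hF', Finset.mem_erase, Finset.mem_union, ne_eq, hki, hkj, not_false_eq_true,
      true_and, not_or] at hk
    rw [hu, if_neg hk.1, if_neg hk.2]
  · intro k hk hki hkj
    rw [Finset.mem_union, not_or] at hk
    rw [mk_apply, if_neg (by simp [hkj, hk.1]), if_neg hk.2]
  · rw [mk_apply x σ (insert j D) F' j, if_pos (Finset.mem_insert_self _ _), hu i, if_neg hiD,
      if_pos hiF, Finset.sum_union hDF']
    have h1 : ∑ k ∈ D, max (u k - mk x σ (insert j D) F' k) 0 = D.card * (s - σ) := by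
      rw [Finset.sum_congr rfl (g := fun _ => s - σ)]
      · rw [Finset.sum_const, nsmul_eq_mul]
      · intro k hk
        rw [hu, mk_apply, if_pos hk, if_pos (Finset.mem_insert_of_mem hk),
          max_eq_left (by linarith)]
    have h2 : ∑ k ∈ F', max (u k - mk x σ (insert j D) F' k) 0 ≤
        ∑ k ∈ F', max (min (x k) s - σ) 0 := by
      refine Finset.sum_le_sum fun k hk => ?_
      have hkD : k ∉ D := fun h => Finset.disjoint_left.1 hDF' h hk
      have hkj : k ≠ j := (Finset.mem_erase.1 hk).1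
      rw [hu, mk_apply, if_neg hkD, if_pos (hF'F hk), if_neg (by simp [hkD, hkj]), if_pos hk]
      rcases le_total (x k) σ with h | h
      · rw [min_eq_left h, min_eq_left (h.trans hσs), sub_self, max_self]
        exact le_max_right _ _
      · rw [min_eq_right h]
    linarith

/-- Property (A) for the family. -/
lemma Dom.multi {t : ℝ} (P : Finset ℕ) : ∀ (Q : Finset ℕ) (z : ℕ → ℝ), P.card ≤ Q.card →
    Disjoint P Q → (∀ k, 0 ≤ z k) → (∀ k, z k ≤ t) → (∀ k ∈ P, z k = 0) → (∀ k ∈ Q, z k = 0) →
    Dom ν (fun k => if k ∈ P then t else z k) (fun k => if k ∈ Q then t else z k) := by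
  induction P using Finset.induction_on with
  | empty =>
    intro Q z _ _ _ hzt _ _
    refine Dom.of_le fun k => ?_
    simp only [Finset.notMem_empty, if_false]
    split_ifs
    · exact hzt k
    · exact le_rfl
  | insert i P hiP ih =>
    intro Q z hcard hdisj hz0 hzt hzP hzQ
    have ht : 0 ≤ t := (hz0 0).trans (hzt 0)
    rw [Finset.card_insert_of_notMem hiP] at hcard
    obtain ⟨j, hj⟩ : Q.Nonempty := Finset.card_pos.1 (by omega)
    rw [Finset.disjoint_insert_left] at hdisj
    have hij : i ≠ j := fun h => hdisj.1 (h ▸ hj)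
    have hjP : j ∉ P := fun h => Finset.disjoint_left.1 hdisj.2 h hj
    let w : ℕ → ℝ := fun k => if k ∈ P then t else z k
    have h1 : Dom ν (Function.update w i t) (Function.update w j t) := by
      refine Dom.move (fun k => ?_) (fun k => ?_) hij ?_ ?_
      · simp only [w]; split_ifs
        · exact ht
        · exact hz0 k
      · simp only [w]; split_ifs
        · exact le_rfl
        · exact hzt k
      · simp only [w, if_neg hiP]; exact hzP i (Finset.mem_insert_self _ _)
      · simp only [w, if_neg hjP]; exact hzQ j hj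
    have h2 := ih (Q.erase j) (Function.update z j t)
      (by rw [Finset.card_erase_of_mem hj]; omega)
      (Finset.disjoint_of_subset_right (Finset.erase_subset _ _) hdisj.2)
      (fun k => by
        by_cases h : k = j
        · subst h; simpa using ht
        · rw [Function.update_of_ne h]; exact hz0 k)
      (fun k => by
        by_cases h : k = j
        · subst h; simp
        · rw [Function.update_of_ne h]; exact hzt k)
      (fun k hk => by
        rw [Function.update_of_ne (ne_of_mem_of_not_mem hk hjP)]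
        exact hzP k (Finset.mem_insert_of_mem hk))
      (fun k hk => by
        rw [Function.update_of_ne (Finset.mem_erase.1 hk).1]
        exact hzQ k (Finset.mem_erase.1 hk).2)
    have e1 : (fun k => if k ∈ insert i P then t else z k) = Function.update w i t := by
      ext k
      by_cases h : k = i
      · subst h; simp
      · rw [Function.update_of_ne h]; simp [w, h]
    have e2 : Function.update w j t = fun k => if k ∈ P then t else Function.update z j t k := by
      ext k
      by_cases h : k = j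
      · subst h; simp
      · rw [Function.update_of_ne h, Function.update_of_ne h]
    have e3 : (fun k => if k ∈ Q then t else z k) =
        fun k => if k ∈ Q.erase j then t else Function.update z j t k := by
      ext k
      by_cases h : k = j
      · subst h; simp [hj]
      · rw [Function.update_of_ne h]; simp [h]
    rw [e1, e3]
    exact h1.trans (e2 ▸ h2)

/-- The greedy inequality at the level of sequences. -/
lemma Dom.greedy (a b c : ℕ → ℝ) (A B : Finset ℕ) (ha : ∀ k, 0 ≤ a k)
    (hA : ∀ n ∈ A, ∀ k ∉ A, a k ≤ a n) (hB : B.card ≤ A.card)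
    (hb : ∀ k, b k = if k ∈ A then 0 else a k) (hc0 : ∀ k, 0 ≤ c k) (hc : ∀ k ∉ B, c k = a k) :
    Dom ν b c := by
  rcases A.eq_empty_or_nonempty with rfl | hne
  · have : B = ∅ := by simpa using hB
    subst this
    exact Dom.of_le fun k => by rw [hb, hc k (by simp)]; simp
  obtain ⟨n, hn, hmin⟩ := Finset.exists_min_image A a hne
  let z : ℕ → ℝ := fun k => if k ∈ A ∪ B then 0 else a k
  have h1 := Dom.multi (ν := ν) (t := a n) (B \ A) (A \ B) z
    (by
      have h1 := Finset.card_sdiff_add_card_inter B A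
      have h2 := Finset.card_sdiff_add_card_inter A B
      rw [Finset.inter_comm] at h2
      omega)
    (by
      rw [Finset.disjoint_left]
      intro k hk hk'
      exact (Finset.mem_sdiff.1 hk).2 (Finset.mem_sdiff.1 hk').1)
    (fun k => by simp only [z]; split_ifs; exacts [le_rfl, ha k])
    (fun k => by
      simp only [z]; split_ifs with h
      · exact ha n
      · exact hA n hn k fun h' => h (Finset.mem_union_left _ h'))
    (fun k hk => by
      simp only [z]; rw [if_pos (Finset.mem_union_right _ (Finset.mem_sdiff.1 hk).1)])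
    (fun k hk => by
      simp only [z]; rw [if_pos (Finset.mem_union_left _ (Finset.mem_sdiff.1 hk).1)])
  refine (Dom.of_le fun k => ?_).trans (h1.trans (Dom.of_le fun k => ?_))
  · rw [hb]
    by_cases hkA : k ∈ A
    · simp [z, hkA]
    · by_cases hkB : k ∈ B
      · simp only [Finset.mem_sdiff, hkA, hkB, not_false_eq_true, and_self, if_true]
        exact hA n hn k hkA
      · simp [z, hkA, hkB]
  · by_cases hkB : k ∈ B
    · simpa [z, hkB] using hc0 k
    · rw [hc k hkB]
      by_cases hkA : k ∈ A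
      · simpa [hkA, hkB] using hmin k hkA
      · simp [z, hkA, hkB]

end Pool.Agent.MP_439cf8_an.H72
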