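import Pool.Agent.MP_439cf8_an.H72.Family

/-! The new norm on the dual space. -/

namespace Pool.Agent.MP_439cf8_an.H72

open Finset

variable {S : Type*} [NormedAddCommGroup S] [NormedSpace ℝ S] (ι : (ℕ →₀ ℝ) →ₗ[ℝ] S)

lemma apply_eq_sum (f : StrongDual ℝ S) (y : ℕ →₀ ℝ) :
    f (ι y) = pr y fun k => f (ι (Finsupp.single k 1)) := by
  conv_lhs => rw [← Finsupp.sum_single y]
  rw [Finsupp.sum, map_sum, map_sum, pr, Finsupp.sum]
  refine Finset.sum_congr rfl fun k _ => ?_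
  rw [← smul_eq_mul, ← map_smul, ← map_smul, Finsupp.smul_single, smul_eq_mul, mul_one]

variable {ι}

lemma Fam.norm_le (h : Eqn fun x => ‖ι x‖) {u : ℕ →₀ ℝ} (hu : u ∈ Fam fun x => ‖ι x‖) :
    ‖ι u‖ ≤ 13 := by
  have h0 : (fun x => ‖ι x‖) 0 = 0 := by simp
  obtain ⟨x, s, D, E, F, G, hx, hν, hs, hcard, hDF, hFG, hEG, hbud, hu⟩ := hu
  have hsum : ∀ T : Finset ℕ, T.card ≤ D.card → ∑ k ∈ T, x k ≤ Real.logb 2 (D.card + 1) := by
    intro T hT
    have h1 := h.sum_le x T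
    have h2 : ∑ k ∈ T, |x k| = ∑ k ∈ T, x k :=
      Finset.sum_congr rfl fun k _ => abs_of_nonneg (hx k)
    have h3 : 0 ≤ Real.logb 2 ((T.card : ℝ) + 1) :=
      Real.logb_nonneg (by norm_num) (by simp)
    have h4 : Real.logb 2 ((T.card : ℝ) + 1) ≤ Real.logb 2 ((D.card : ℝ) + 1) :=
      Real.logb_le_logb_of_le (by norm_num) (by positivity) (by exact_mod_cast Nat.succ_le_succ hT)
    have h5 : Real.logb 2 ((T.card : ℝ) + 1) * ‖ι x‖ ≤ Real.logb 2 ((T.card : ℝ) + 1) :=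
      mul_le_of_le_one_right h3 hν
    linarith
  have hl : 0 ≤ Real.logb 2 ((D.card : ℝ) + 1) := Real.logb_nonneg (by norm_num) (by simp)
  have hms : (D.card : ℝ) * s ≤ 2 * Real.logb 2 (D.card + 1) := by
    set T := G.filter fun k => s < x k with hT
    rcases le_total T.card D.card with hle | hle
    · have h1 := hsum E hcard.ge
      have h2 := hsum T hle
      have h3 : ∑ k ∈ G, max (x k - s) 0 ≤ ∑ k ∈ T, x k := by
        rw [hT, Finset.sum_filter]
        refine Finset.sum_le_sum fun k _ => ?_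
        split_ifs with hk
        · exact max_le (by linarith) (hx k)
        · exact max_le (by linarith) le_rfl
      linarith
    · obtain ⟨T', hT', hc⟩ := Finset.exists_subset_card_eq hle
      have h1 := hsum T' hc.le
      have h2 : (T'.card : ℝ) * s ≤ ∑ k ∈ T', x k := by
        rw [← nsmul_eq_mul, ← Finset.sum_const]
        exact Finset.sum_le_sum fun k hk => (Finset.mem_filter.1 (hT' hk)).2.le
      rw [hc] at h2
      linarith
  let d : ℕ →₀ ℝ := mk 0 1 D ∅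
  let y : ℕ →₀ ℝ := mk x s ∅ F
  have hd : ∀ k, d k = if k ∈ D then 1 else 0 := fun k => by simp [d, mk_apply]
  have hy : ∀ k, y k = if k ∈ F then min (x k) s else 0 := fun k => by simp [y, mk_apply]
  have hsplit : u = s • d + y := by
    ext k
    rw [hu, Finsupp.add_apply, Finsupp.smul_apply, hd, hy]
    by_cases hk : k ∈ D
    · simp [hk, Finset.disjoint_left.1 hDF hk]
    · simp [hk]
  have hdsupp : d.support = D := by
    ext k
    rw [Finsupp.mem_support_iff, hd]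
    by_cases hk : k ∈ D <;> simp [hk]
  have h1 : ‖ι d‖ ≤ g D.card := by
    have := h.le_g h0 d fun k => by rw [hd]; split_ifs <;> simp
    rwa [hdsupp] at this
  have h2 : ‖ι y‖ ≤ 1 := by
    refine le_trans (h.mono h0 y x fun k => ?_) hν
    rw [hy]
    split_ifs
    · rw [abs_of_nonneg (hx k), abs_of_nonneg (le_min (hx k) hs)]
      exact min_le_left _ _
    · simp
  have h3 : s * g D.card ≤ 12 := by
    rcases Nat.eq_zero_or_pos D.card with h0 | h0
    · rw [h0]; simp [g]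
    · have h4 : (0 : ℝ) < D.card := by exact_mod_cast h0
      have h5 := logb_mul_g_le D.card
      have h6 := mul_le_mul_of_nonneg_right hms (g_nonneg D.card)
      have h7 : (D.card : ℝ) * (s * g D.card) ≤ D.card * 12 := by nlinarith
      exact le_of_mul_le_mul_left h7 h4
  rw [hsplit, map_add, map_smul]
  calc ‖s • ι d + ι y‖ ≤ ‖s • ι d‖ + ‖ι y‖ := norm_add_le _ _
    _ = s * ‖ι d‖ + ‖ι y‖ := by rw [norm_smul, Real.norm_of_nonneg hs]
    _ ≤ s * g D.card + 1 := add_le_add (mul_le_mul_of_nonneg_left h1 hs) h2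
    _ ≤ 13 := by linarith

/-- Moduli of the coordinates of a functional. -/
noncomputable def co (ι : (ℕ →₀ ℝ) →ₗ[ℝ] S) (f : StrongDual ℝ S) (k : ℕ) : ℝ :=
  |f (ι (Finsupp.single k 1))|

lemma pr_co_le (h : Eqn fun x => ‖ι x‖) {u : ℕ →₀ ℝ} (hu : u ∈ Fam fun x => ‖ι x‖)
    (f : StrongDual ℝ S) : pr u (co ι f) ≤ 13 * ‖f‖ := by
  have h0 : (fun x => ‖ι x‖) 0 = 0 := by simp
  let y : ℕ →₀ ℝ := Finsupp.onFinset u.support
    (fun k => if 0 ≤ f (ι (Finsupp.single k 1)) then u k else -u k) (by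
      intro k hk
      rw [Finsupp.mem_support_iff]
      intro h0
      simp [h0] at hk)
  have hy : ∀ k, y k = if 0 ≤ f (ι (Finsupp.single k 1)) then u k else -u k := fun k => rfl
  have h1 : pr u (co ι f) = f (ι y) := by
    rw [apply_eq_sum, pr_eq y _ Finsupp.support_onFinset_subset, pr_eq u _ subset_rfl]
    refine Finset.sum_congr rfl fun k _ => ?_
    rw [hy, co]
    split_ifs with hk
    · rw [abs_of_nonneg hk]
    · rw [abs_of_neg (not_le.1 hk)]; ring
  have h2 : ‖ι y‖ ≤ ‖ι u‖ := h.mono h0 y u fun k => by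
    rw [hy]; split_ifs <;> simp
  have h3 := Fam.norm_le h hu
  rw [h1]
  calc f (ι y) ≤ ‖f (ι y)‖ := Real.le_norm_self _
    _ ≤ ‖f‖ * ‖ι y‖ := f.le_opNorm _
    _ ≤ ‖f‖ * 13 := mul_le_mul_of_nonneg_left (h2.trans h3) (norm_nonneg _)
    _ = 13 * ‖f‖ := mul_comm _ _

lemma zero_mem_Fam : (0 : ℕ →₀ ℝ) ∈ Fam fun x => ‖ι x‖ :=
  ⟨0, 0, ∅, ∅, ∅, ∅, by simp, by simp, le_rfl, rfl, by simp, by simp, by simp, by simp, by simp⟩

/-- The value of the new norm. -/
noncomputable def nn (ι : (ℕ →₀ ℝ) →ₗ[ℝ] S) (f : StrongDual ℝ S) : ℝ :=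
  sSup ((fun u => pr u (co ι f)) '' Fam fun x => ‖ι x‖)

lemma le_nn (h : Eqn fun x => ‖ι x‖) {u : ℕ →₀ ℝ} (hu : u ∈ Fam fun x => ‖ι x‖)
    (f : StrongDual ℝ S) : pr u (co ι f) ≤ nn ι f :=
  le_csSup ⟨13 * ‖f‖, by rintro _ ⟨v, hv, rfl⟩; exact pr_co_le h hv f⟩ ⟨u, hu, rfl⟩

lemma nn_le {f : StrongDual ℝ S} {M : ℝ}
    (hM : ∀ u ∈ Fam fun x => ‖ι x‖, pr u (co ι f) ≤ M) : nn ι f ≤ M :=
  csSup_le ⟨_, 0, zero_mem_Fam, rfl⟩ (by rintro _ ⟨v, hv, rfl⟩; exact hM v hv)

lemma nn_le_of_dom (h : Eqn fun x => ‖ι x‖) {f f' : StrongDual ℝ S}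
    (hd : Dom (fun x => ‖ι x‖) (co ι f) (co ι f')) : nn ι f ≤ nn ι f' :=
  nn_le fun u hu => by
    obtain ⟨u', hu', hle⟩ := hd u hu
    exact hle.trans (le_nn h hu' f')

lemma nn_nonneg (h : Eqn fun x => ‖ι x‖) (f : StrongDual ℝ S) : 0 ≤ nn ι f := by
  simpa [pr] using le_nn h zero_mem_Fam f

/-- The new norm as a seminorm. -/
noncomputable def newNorm (h : Eqn fun x => ‖ι x‖) : Seminorm ℝ (StrongDual ℝ S) :=
  Seminorm.ofSMulLE (nn ι)
    (le_antisymm (nn_le fun u _ => by simp [pr, co]) (nn_nonneg h 0))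
    (fun f f' => nn_le fun u hu => by
      refine le_trans ?_ (add_le_add (le_nn h hu f) (le_nn h hu f'))
      rw [pr, pr, pr, Finsupp.sum, Finsupp.sum, Finsupp.sum, ← Finset.sum_add_distrib]
      refine Finset.sum_le_sum fun k _ => ?_
      rw [← mul_add]
      exact mul_le_mul_of_nonneg_left (abs_add_le _ _) (Fam.nonneg hu k))
    (fun r f => nn_le fun u hu => by
      refine le_trans (le_of_eq ?_) (mul_le_mul_of_nonneg_left (le_nn h hu f) (norm_nonneg r))
      rw [pr, pr, Finsupp.sum, Finsupp.sum, Finset.mul_sum]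
      refine Finset.sum_congr rfl fun k _ => ?_
      simp only [co, smul_apply, smul_eq_mul, abs_mul, Real.norm_eq_abs]
      ring)

lemma newNorm_apply (h : Eqn fun x => ‖ι x‖) (f : StrongDual ℝ S) : newNorm h f = nn ι f := rfl

lemma norm_le_nn (h : Eqn fun x => ‖ι x‖) (hd : DenseRange ι) (f : StrongDual ℝ S) :
    ‖f‖ ≤ nn ι f := by
  have h0 : (fun x => ‖ι x‖) 0 = 0 := by simp
  have h1 : ∀ x : ℕ →₀ ℝ, ‖ι x‖ ≤ 1 → ‖f (ι x)‖ ≤ nn ι f := by
    intro x hx
    let x' : ℕ →₀ ℝ := x.mapRange (fun r => |r|) abs_zero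
    have hx' : ∀ k, x' k = |x k| := fun k => rfl
    have hmem : x' ∈ Fam fun x => ‖ι x‖ := by
      refine ⟨x', 1, ∅, ∅, x.support, x.support, fun k => abs_nonneg _, ?_, zero_le_one, rfl,
        by simp, subset_rfl, by simp, ?_, fun k => ?_⟩
      · exact le_trans (h.mono h0 x' x fun k => by rw [hx', abs_abs]) hx
      · simp only [Finset.card_empty, Nat.cast_zero, zero_mul, Finset.sum_empty, zero_add]
        exact Finset.sum_nonneg fun k _ => le_max_right _ _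
      · rw [if_neg (Finset.notMem_empty k)]
        split_ifs with hk
        · rw [min_eq_left]
          exact (h.coord x k).trans hx
        · rw [hx', Finsupp.notMem_support_iff.1 hk, abs_zero]
    refine le_trans ?_ (le_nn h hmem f)
    rw [apply_eq_sum, pr_eq x _ subset_rfl, pr_eq x' _ Finsupp.support_mapRange]
    refine (norm_sum_le _ _).trans (Finset.sum_le_sum fun k _ => ?_)
    rw [Real.norm_eq_abs, abs_mul, hx', co]
  refine f.opNorm_le_bound (nn_nonneg h f) fun z => ?_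
  refine hd.induction_on (p := fun z => ‖f z‖ ≤ nn ι f * ‖z‖) z
    (isClosed_le (by fun_prop) (by fun_prop)) fun x => ?_
  rcases (norm_nonneg (ι x)).eq_or_lt with h2 | h2
  · have : ι x = 0 := norm_eq_zero.1 h2.symm
    simp [this]
  · have h3 := h1 (‖ι x‖⁻¹ • x) (by
      rw [map_smul, norm_smul, norm_inv, norm_norm, inv_mul_cancel₀ h2.ne'])
    rw [map_smul, map_smul, norm_smul, norm_inv, norm_norm, inv_mul_le_iff₀ h2] at h3
    rwa [mul_comm]

theorem main (hd : DenseRange ι) (h : Eqn fun x => ‖ι x‖)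
    (e : ℕ → StrongDual ℝ S) (he : ∀ n x, e n (ι x) = x n) :
    ∃ N : Seminorm ℝ (StrongDual ℝ S),
      (∃ c C : ℝ, 0 < c ∧ ∀ f, c * ‖f‖ ≤ N f ∧ N f ≤ C * ‖f‖) ∧
      ∀ (f : StrongDual ℝ S) (m : ℕ) (A : Finset ℕ), A.card = m →
        (∀ n ∈ A, ∀ k ∉ A, |f (ι (Finsupp.single k 1))| ≤ |f (ι (Finsupp.single n 1))|) →
        ∀ (B : Finset ℕ) (c : ℕ → ℝ), B.card ≤ m →
          N (f - ∑ n ∈ A, f (ι (Finsupp.single n 1)) • e n) ≤ N (f - ∑ n ∈ B, c n • e n) := by
  refine ⟨newNorm h, ⟨1, 13, one_pos, fun f => ⟨?_, nn_le fun u hu => pr_co_le h hu f⟩⟩, ?_⟩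
  · rw [one_mul]; exact norm_le_nn h hd f
  intro f m A hA hgr B c hB
  have hco : ∀ (T : Finset ℕ) (d : ℕ → ℝ) (k : ℕ), co ι (f - ∑ n ∈ T, d n • e n) k =
      |f (ι (Finsupp.single k 1)) - if k ∈ T then d k else 0| := by
    intro T d k
    simp only [co, sub_apply, _root_.sum_apply,
      smul_apply, he, smul_eq_mul, Finsupp.single_apply, mul_ite, mul_one,
      mul_zero, Finset.sum_ite_eq]
  refine nn_le_of_dom h (Dom.greedy (co ι f) _ _ A B (fun k => abs_nonneg _) hgr (hA ▸ hB)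
    (fun k => ?_) (fun k => abs_nonneg _) fun k hk => ?_)
  · rw [hco]
    split_ifs <;> simp [co]
  · rw [hco, if_neg hk, sub_zero, co]

end Pool.Agent.MP_439cf8_an.H72
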