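import Mathlib

/-! Basic estimates for the Schlumprecht norm, derived from its implicit equation. -/

namespace Pool.Agent.MP_439cf8_an.H72

open Finset

/-- The defining equation of the Schlumprecht norm for a function `ν` on finitely supported
sequences. -/
def Eqn (ν : (ℕ →₀ ℝ) → ℝ) : Prop :=
  ∀ x : ℕ →₀ ℝ, IsLUB
    ({r | ∃ k, r = |x k|} ∪
      {r | ∃ n : ℕ, 2 ≤ n ∧ ∃ a b : Fin n → ℕ, (∀ i, a i ≤ b i) ∧ (∀ i j, i < j → b i < a j) ∧
        r = (Real.logb 2 (n + 1))⁻¹ * ∑ i, ν (x.filter fun k => k ∈ Finset.Icc (a i) (b i))})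
    (ν x)

lemma one_lt_logb {n : ℕ} (hn : 2 ≤ n) : 1 < Real.logb 2 ((n : ℝ) + 1) := by
  rw [Real.lt_logb_iff_rpow_lt (by norm_num) (by positivity)]
  have : (2 : ℝ) ≤ n := by exact_mod_cast hn
  rw [Real.rpow_one]; linarith

lemma logb_three_le {n : ℕ} (hn : 2 ≤ n) : Real.logb 2 3 ≤ Real.logb 2 ((n : ℝ) + 1) := by
  have : (2 : ℝ) ≤ n := by exact_mod_cast hn
  exact Real.logb_le_logb_of_le (by norm_num) (by norm_num) (by linarith)

variable {ν : (ℕ →₀ ℝ) → ℝ}

lemma Eqn.coord (h : Eqn ν) (x : ℕ →₀ ℝ) (k : ℕ) : |x k| ≤ ν x :=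
  (h x).1 (Or.inl ⟨k, rfl⟩)

lemma Eqn.nonneg (h : Eqn ν) (x : ℕ →₀ ℝ) : 0 ≤ ν x :=
  (abs_nonneg _).trans (h.coord x 0)

lemma intervals_disjoint {n : ℕ} {a b : Fin n → ℕ} (hab : ∀ i j, i < j → b i < a j)
    {i j : Fin n} (hij : i ≠ j) {k : ℕ} (hi : k ∈ Finset.Icc (a i) (b i))
    (hj : k ∈ Finset.Icc (a j) (b j)) : False := by
  rw [Finset.mem_Icc] at hi hj
  rcases lt_or_gt_of_ne hij with h | h
  · have := hab i j h; omega
  · have := hab j i h; omega

/-- An induction principle for upper bounds: only blockings in which no interval contains a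
given finite set `T` that contains the support matter. -/
lemma Eqn.le_of (h : Eqn ν) (h0 : ν 0 = 0) (x : ℕ →₀ ℝ) (T : Finset ℕ) (hT : x.support ⊆ T)
    (M : ℝ) (h1 : ∀ k, |x k| ≤ M)
    (h2 : ∀ n : ℕ, 2 ≤ n → ∀ a b : Fin n → ℕ, (∀ i, a i ≤ b i) → (∀ i j, i < j → b i < a j) →
      (∀ i, ¬ T ⊆ Finset.Icc (a i) (b i)) →
      ∑ i, ν (x.filter fun k => k ∈ Finset.Icc (a i) (b i)) ≤ Real.logb 2 (n + 1) * M) :
    ν x ≤ M := by
  have hM : 0 ≤ M := (abs_nonneg _).trans (h1 0)
  have h3 : (1 : ℝ) < Real.logb 2 3 := by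
    have := one_lt_logb (n := 2) le_rfl
    norm_num at this ⊢; exact this
  have key : ν x ≤ max M (ν x / Real.logb 2 3) := by
    apply (h x).2
    rintro r (⟨k, rfl⟩ | ⟨n, hn, a, b, hab, hlt, rfl⟩)
    · exact (h1 k).trans (le_max_left _ _)
    · have hl := one_lt_logb hn
      by_cases hc : ∀ i, ¬ T ⊆ Finset.Icc (a i) (b i)
      · refine le_trans ?_ (le_max_left _ _)
        rw [inv_mul_le_iff₀ (by linarith)]
        exact h2 n hn a b hab hlt hc
      · push Not at hc
        obtain ⟨i, hi⟩ := hc
        refine le_trans ?_ (le_max_right _ _)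
        have hsum : ∑ j, ν (x.filter fun k => k ∈ Finset.Icc (a j) (b j)) = ν x := by
          rw [Finset.sum_eq_single i]
          · congr 1
            ext k
            rw [Finsupp.filter_apply]
            split_ifs with hk
            · rfl
            · by_contra hne
              exact hk (hi (hT (Finsupp.mem_support_iff.2 (Ne.symm hne))))
          · intro j _ hji
            have : (x.filter fun k => k ∈ Finset.Icc (a j) (b j)) = 0 := by
              ext k
              rw [Finsupp.filter_apply]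
              split_ifs with hk
              · by_contra hne
                exact intervals_disjoint hlt hji hk (hi (hT (Finsupp.mem_support_iff.2 hne)))
              · rfl
            rw [this, h0]
          · simp
        rw [hsum, inv_mul_eq_div]
        exact div_le_div_of_nonneg_left (h.nonneg x) (by linarith) (logb_three_le hn)
  rcases le_max_iff.1 key with h4 | h4
  · exact h4
  · rw [le_div_iff₀ (by linarith)] at h4
    have := h.nonneg x
    nlinarith

lemma card_filter_lt {T : Finset ℕ} {I : Finset ℕ} (h : ¬ T ⊆ I) :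
    (T.filter fun k => k ∈ I).card < T.card := by
  apply Finset.card_lt_card
  refine ⟨Finset.filter_subset _ _, fun hs => h fun k hk => ?_⟩
  exact (Finset.mem_filter.1 (hs hk)).2

/-- The norm is a lattice norm. -/
lemma Eqn.mono (h : Eqn ν) (h0 : ν 0 = 0) (x y : ℕ →₀ ℝ) (hxy : ∀ k, |x k| ≤ |y k|) :
    ν x ≤ ν y := by
  induction hm : y.support.card using Nat.strong_induction_on generalizing x y with
  | _ m ih =>
    have hs : x.support ⊆ y.support := by
      intro k hk
      rw [Finsupp.mem_support_iff] at hk ⊢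
      intro hy
      have := hxy k
      rw [hy, abs_zero] at this
      exact hk (abs_nonpos_iff.1 this)
    apply h.le_of h0 x y.support hs
    · exact fun k => (hxy k).trans (h.coord y k)
    · intro n hn a b hab hlt hc
      have hl := one_lt_logb hn
      have h1 : (Real.logb 2 (n + 1))⁻¹ *
          ∑ i, ν (y.filter fun k => k ∈ Finset.Icc (a i) (b i)) ≤ ν y :=
        (h y).1 (Or.inr ⟨n, hn, a, b, hab, hlt, rfl⟩)
      rw [inv_mul_le_iff₀ (by linarith)] at h1
      refine le_trans (Finset.sum_le_sum fun i _ => ?_) h1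
      refine ih _ ?_ _ _ ?_ rfl
      · rw [Finsupp.support_filter, ← hm]
        exact card_filter_lt (hc i)
      · intro k
        rw [Finsupp.filter_apply, Finsupp.filter_apply]
        split_ifs
        · exact hxy k
        · exact le_rfl

/-- Lower estimate. -/
lemma Eqn.sum_le (h : Eqn ν) (x : ℕ →₀ ℝ) (E : Finset ℕ) :
    ∑ k ∈ E, |x k| ≤ Real.logb 2 (E.card + 1) * ν x := by
  rcases Nat.lt_or_ge E.card 2 with hE | hE
  · have : E.card = 0 ∨ E.card = 1 := by omega
    rcases this with h0 | h1
    · rw [Finset.card_eq_zero] at h0; subst h0; simp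
    · obtain ⟨k, rfl⟩ := Finset.card_eq_one.1 h1
      have : Real.logb 2 (((({k} : Finset ℕ).card : ℕ) : ℝ) + 1) = 1 := by
        simp; norm_num
      rw [this]; simpa using h.coord x k
  · have hl := one_lt_logb hE
    let a : Fin E.card → ℕ := E.orderEmbOfFin rfl
    have h1 : (Real.logb 2 (E.card + 1))⁻¹ *
        ∑ i, ν (x.filter fun k => k ∈ Finset.Icc (a i) (a i)) ≤ ν x :=
      (h x).1 (Or.inr ⟨E.card, hE, a, a, fun _ => le_rfl,
        fun i j hij => (E.orderEmbOfFin rfl).strictMono hij, rfl⟩)
    rw [inv_mul_le_iff₀ (by linarith)] at h1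
    refine le_trans ?_ h1
    have h2 : ∑ k ∈ E, |x k| = ∑ i, |x (a i)| := by
      symm
      refine Finset.sum_bij (fun i _ => a i) (fun i _ => Finset.orderEmbOfFin_mem _ _ _)
        (fun i _ j _ hij => (E.orderEmbOfFin rfl).injective hij) (fun k hk => ?_) (fun _ _ => rfl)
      have : k ∈ Set.range (E.orderEmbOfFin rfl) := by
        rw [Finset.range_orderEmbOfFin]; exact hk
      obtain ⟨i, hi⟩ := this
      exact ⟨i, Finset.mem_univ _, hi⟩
    rw [h2]
    refine Finset.sum_le_sum fun i _ => ?_
    have := h.coord (x.filter fun k => k ∈ Finset.Icc (a i) (a i)) (a i)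
    rw [Finsupp.filter_apply] at this
    simpa using this

/-- The comparison function for the fundamental function. -/
noncomputable def g (m : ℕ) : ℝ := 3 * m / (3 + Real.log m)

lemma log_nat_nonneg (m : ℕ) : 0 ≤ Real.log m := Real.log_natCast_nonneg m

lemma g_nonneg (m : ℕ) : 0 ≤ g m := by
  have := log_nat_nonneg m
  unfold g; positivity

lemma one_le_g {m : ℕ} (hm : 1 ≤ m) : 1 ≤ g m := by
  have h0 := log_nat_nonneg m
  have h1 : (1 : ℝ) ≤ m := by exact_mod_cast hm
  have h2 := Real.log_le_sub_one_of_pos (x := (m : ℝ)) (by linarith)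
  unfold g
  rw [le_div_iff₀ (by linarith)]
  linarith

lemma g_le {m k n : ℕ} (hm : 1 ≤ m) (hk : k ≤ m) (hn : 1 ≤ n) :
    g k ≤ g m * ((k : ℝ) / m * ((2 + Real.log n) / 3) + 1 / (3 * n)) := by
  have hm1 : (1 : ℝ) ≤ m := by exact_mod_cast hm
  have hn1 : (1 : ℝ) ≤ n := by exact_mod_cast hn
  have lm := log_nat_nonneg m
  have ln := log_nat_nonneg n
  rcases Nat.eq_zero_or_pos k with rfl | hk0
  · have := g_nonneg m
    have h0 : g 0 = 0 := by simp [g]
    rw [h0]; positivity
  · have hk1 : (1 : ℝ) ≤ k := by exact_mod_cast hk0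
    have hkm : (k : ℝ) ≤ m := by exact_mod_cast hk
    have lk := log_nat_nonneg k
    have hlog : Real.log k ≤ Real.log m := Real.log_le_log (by linarith) hkm
    have h1 : Real.log m - Real.log n - Real.log k ≤ m / (n * k) - 1 := by
      have := Real.log_le_sub_one_of_pos (x := (m : ℝ) / (n * k)) (by positivity)
      rw [Real.log_div (by positivity) (by positivity),
        Real.log_mul (by positivity) (by positivity)] at this
      linarith
    have h2 : g m * ((k : ℝ) / m * ((2 + Real.log n) / 3) + 1 / (3 * n)) =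
        k * (2 + Real.log n + m / (n * k)) / (3 + Real.log m) := by
      unfold g; field_simp
    rw [h2]
    unfold g
    rw [div_le_div_iff₀ (by linarith) (by linarith)]
    have h3 : 3 + (Real.log m - Real.log k) ≤ 2 + Real.log n + m / (n * k) := by linarith
    have h4 : 3 * (3 + Real.log m) ≤ (3 + (Real.log m - Real.log k)) * (3 + Real.log k) := by
      nlinarith
    have h5 : (3 + (Real.log m - Real.log k)) * (3 + Real.log k) ≤
        (2 + Real.log n + m / (n * k)) * (3 + Real.log k) :=
      mul_le_mul_of_nonneg_right h3 (by linarith)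
    nlinarith

lemma log_le_logb {n : ℕ} (hn : 2 ≤ n) : 1 + Real.log n / 3 ≤ Real.logb 2 ((n : ℝ) + 1) := by
  have h2 : (2 : ℝ) ≤ n := by exact_mod_cast hn
  have hl2 := Real.log_two_lt_d9
  have hl2' := Real.log_two_gt_d9
  have hL : 1 ≤ Real.log ((n : ℝ) + 1) := by
    rw [Real.le_log_iff_exp_le (by linarith)]
    have := Real.exp_one_lt_d9
    linarith
  have h3 : Real.log n ≤ Real.log ((n : ℝ) + 1) := Real.log_le_log (by linarith) (by linarith)
  have h4 := log_nat_nonneg n
  rw [Real.logb, le_div_iff₀ (by linarith)]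
  nlinarith

/-- Upper estimate. -/
lemma Eqn.le_g (h : Eqn ν) (h0 : ν 0 = 0) (x : ℕ →₀ ℝ) (hx : ∀ k, |x k| ≤ 1) :
    ν x ≤ g x.support.card := by
  induction hm : x.support.card using Nat.strong_induction_on generalizing x with
  | _ m ih =>
    rcases Nat.eq_zero_or_pos m with rfl | hm0
    · rw [Finset.card_eq_zero, Finsupp.support_eq_empty] at hm
      rw [hm, h0]; exact g_nonneg _
    apply h.le_of h0 x x.support subset_rfl
    · exact fun k => (hx k).trans (one_le_g hm0)
    · intro n hn a b hab hlt hc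
      set c : Fin n → ℕ := fun i => (x.support.filter fun k => k ∈ Finset.Icc (a i) (b i)).card
        with hc'
      have hlt' : ∀ i, c i < m := fun i => hm ▸ card_filter_lt (hc i)
      have hsum : ∑ i, c i ≤ m := by
        rw [← hm, hc', ← Finset.card_biUnion]
        · apply Finset.card_le_card
          intro k hk
          obtain ⟨i, _, hi⟩ := Finset.mem_biUnion.1 hk
          exact (Finset.mem_filter.1 hi).1
        · intro i _ j _ hij
          rw [Function.onFun, Finset.disjoint_left]
          intro k hi hj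
          exact intervals_disjoint hlt hij (Finset.mem_filter.1 hi).2 (Finset.mem_filter.1 hj).2
      have h1 : ∀ i, ν (x.filter fun k => k ∈ Finset.Icc (a i) (b i)) ≤
          g m * ((c i : ℝ) / m * ((2 + Real.log n) / 3) + 1 / (3 * n)) := by
        intro i
        refine le_trans (ih (c i) (hlt' i) _ ?_ ?_) (g_le hm0 (hlt' i).le (by omega))
        · intro k
          rw [Finsupp.filter_apply]
          split_ifs
          · exact hx k
          · simp
        · rw [Finsupp.support_filter]
      refine le_trans (Finset.sum_le_sum fun i _ => h1 i) ?_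
      rw [← Finset.mul_sum, mul_comm]
      refine mul_le_mul_of_nonneg_right (le_trans ?_ (log_le_logb hn)) (g_nonneg _)
      rw [Finset.sum_add_distrib, ← Finset.sum_mul, ← Finset.sum_div]
      have hm1 : (0 : ℝ) < m := by exact_mod_cast hm0
      have hn1 : (0 : ℝ) < n := by exact_mod_cast (by omega : 0 < n)
      have h2 : (∑ i, (c i : ℝ)) / m ≤ 1 := by
        rw [div_le_one hm1]; exact_mod_cast hsum
      have h3 := log_nat_nonneg n
      have h4 : ∑ _i : Fin n, 1 / (3 * (n : ℝ)) = 1 / 3 := by
        simp; field_simp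
      rw [h4]
      have h5 : (∑ i, (c i : ℝ)) / m * ((2 + Real.log n) / 3) ≤ (2 + Real.log n) / 3 :=
        mul_le_of_le_one_left (by positivity) h2
      linarith

lemma logb_mul_g_le (m : ℕ) : Real.logb 2 ((m : ℝ) + 1) * g m ≤ 6 * m := by
  rcases Nat.eq_zero_or_pos m with rfl | hm0
  · simp
  have hm1 : (1 : ℝ) ≤ m := by exact_mod_cast hm0
  have h0 := log_nat_nonneg m
  have hl2' := Real.log_two_gt_d9
  have h1 : Real.logb 2 ((m : ℝ) + 1) ≤ 2 * (3 + Real.log m) := by
    rw [Real.logb, div_le_iff₀ (by linarith)]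
    have h2 : Real.log ((m : ℝ) + 1) ≤ Real.log (2 * m) :=
      Real.log_le_log (by linarith) (by linarith)
    rw [Real.log_mul (by norm_num) (by linarith)] at h2
    nlinarith
  calc Real.logb 2 ((m : ℝ) + 1) * g m ≤ 2 * (3 + Real.log m) * g m :=
        mul_le_mul_of_nonneg_right h1 (g_nonneg m)
    _ = 6 * m := by unfold g; field_simp; norm_num

end Pool.Agent.MP_439cf8_an.H72
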